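import Pool.Agent.Helper94_Rad.Stmt

/-! Squad RAD, module PWR: few solutions of `R c = b q ^ e` in a residue class. -/

namespace Pool.Agent.RAD.H23

open Polynomial

/-- Crude bound for the values of a polynomial. -/
theorem eval_bound (R : ℤ[X]) (D B H : ℕ) (hD : R.natDegree = D)
    (hR : ∀ i, |R.coeff i| ≤ (H : ℤ) ^ B) (hH : D + 1 ≤ H) (c : ℤ) (hc : |c| ≤ (H : ℤ)) :
    |R.eval c| ≤ (H : ℤ) ^ (B + D + 1) := by
  rw [Polynomial.eval_eq_sum_range, hD]
  have hH1 : (1 : ℤ) ≤ H := by exact_mod_cast (by omega : 1 ≤ H)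
  calc |∑ i ∈ Finset.range (D + 1), R.coeff i * c ^ i|
      ≤ ∑ i ∈ Finset.range (D + 1), |R.coeff i * c ^ i| := Finset.abs_sum_le_sum_abs _ _
    _ ≤ ∑ i ∈ Finset.range (D + 1), (H : ℤ) ^ (B + D) := by
        refine Finset.sum_le_sum (fun i hi => ?_)
        rw [abs_mul, abs_pow, pow_add]
        have h1 : |c| ^ i ≤ (H : ℤ) ^ D := by
          calc |c| ^ i ≤ (H : ℤ) ^ i := pow_le_pow_left₀ (abs_nonneg c) hc i
            _ ≤ (H : ℤ) ^ D := pow_le_pow_right₀ hH1 (by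
                have := Finset.mem_range.mp hi; omega)
        exact mul_le_mul (hR i) h1 (by positivity) (by positivity)
    _ = (D + 1 : ℤ) * (H : ℤ) ^ (B + D) := by
        rw [Finset.sum_const, Finset.card_range, nsmul_eq_mul]; push_cast; ring
    _ ≤ (H : ℤ) * (H : ℤ) ^ (B + D) := by
        refine mul_le_mul_of_nonneg_right ?_ (by positivity)
        exact_mod_cast hH
    _ = (H : ℤ) ^ (B + D + 1) := by rw [pow_succ]; ring

/-- The real number inequalities. -/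
theorem numbers (C Θ ε h v : ℝ) (k : ℕ) (hk : 1 ≤ k) (hε : 0 < ε) (hε1 : ε < 1) (hC : 1 ≤ C)
    (hkΘ : Θ + 1 ≤ 3 * k * ε / 8) (hh : 1 ≤ h) (hCh : C < h) (hCh2 : C ≤ h ^ (5 * ε / 8))
    (hv : 1 ≤ v) (hvh : v ≤ h ^ (1 - ε)) :
    v ≤ v * (h / v) ^ (1 / (4 * k) : ℝ) ∧
    v * (h / v) ^ (1 / (4 * k) : ℝ) * C ≤ h ^ (1 - ε / 8) ∧
    C * h ^ Θ * (v * (h / v) ^ (1 / (4 * k) : ℝ) / v) ^ (k * k) *
      (v * (h / v) ^ (1 / (4 * k) : ℝ) / h ^ (1 - ε / 8)) ^ k < 1 := by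
  have hh0 : 0 < h := by linarith
  have hv0 : 0 < v := by linarith
  have hk0 : (0 : ℝ) < k := by exact_mod_cast hk
  have hk1 : (1 : ℝ) ≤ k := by exact_mod_cast hk
  set T := h / v with hT
  have hT0 : 0 < T := by positivity
  set δ : ℝ := 1 / (4 * k) with hδ
  have hδ0 : 0 < δ := by positivity
  have hδ1 : δ ≤ 1 / 4 := by
    rw [hδ]
    exact one_div_le_one_div_of_le (by norm_num) (by linarith)
  have hTε : h ^ ε ≤ T := by
    rw [hT, le_div_iff₀ hv0]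
    calc h ^ ε * v ≤ h ^ ε * h ^ (1 - ε) := by gcongr
      _ = h := by rw [← Real.rpow_add hh0]; simp
  have hT1 : 1 ≤ T := le_trans (Real.one_le_rpow hh hε.le) hTε
  have hvT : v = h / T := by rw [hT]; field_simp
  have hTδ : 1 ≤ T ^ δ := Real.one_le_rpow hT1 hδ0.le
  refine ⟨by nlinarith, ?_, ?_⟩
  · -- second inequality
    have h1 : v * T ^ δ ≤ h ^ (1 - 3 * ε / 4) := by
      have h2 : v * T ^ δ = h * T ^ (δ - 1) := by
        rw [hvT, Real.rpow_sub hT0, Real.rpow_one]; field_simp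
      rw [h2]
      have h3 : T ^ (δ - 1) ≤ (h ^ ε) ^ (δ - 1) :=
        Real.rpow_le_rpow_of_nonpos (by positivity) hTε (by linarith)
      calc h * T ^ (δ - 1) ≤ h * (h ^ ε) ^ (δ - 1) := by gcongr
        _ = h ^ (1 + ε * (δ - 1)) := by
            rw [← Real.rpow_mul hh0.le, Real.rpow_add hh0, Real.rpow_one]
        _ ≤ h ^ (1 - 3 * ε / 4) := Real.rpow_le_rpow_of_exponent_le hh (by nlinarith)
    calc v * T ^ δ * C ≤ h ^ (1 - 3 * ε / 4) * h ^ (5 * ε / 8) := by gcongr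
      _ = h ^ (1 - ε / 8) := by rw [← Real.rpow_add hh0]; congr 1; ring
  · -- third inequality
    have h1 : v * T ^ δ / v = T ^ δ := by field_simp
    have h2 : v * T ^ δ / h ^ (1 - ε / 8) = h ^ (ε / 8) * T ^ (δ - 1) := by
      rw [hvT, Real.rpow_sub hT0, Real.rpow_one, Real.rpow_sub hh0, Real.rpow_one]
      field_simp
    rw [h1, h2]
    have h3 : (T ^ δ) ^ (k * k) = T ^ ((k : ℝ) / 4) := by
      rw [← Real.rpow_natCast, ← Real.rpow_mul hT0.le]
      congr 1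
      rw [hδ]; push_cast; field_simp
    have h4 : (h ^ (ε / 8) * T ^ (δ - 1)) ^ k = h ^ (k * ε / 8) * T ^ (1 / 4 - (k : ℝ)) := by
      rw [mul_pow, ← Real.rpow_natCast (h ^ (ε / 8)), ← Real.rpow_mul hh0.le,
        ← Real.rpow_natCast (T ^ (δ - 1)), ← Real.rpow_mul hT0.le]
      congr 2
      · ring
      · rw [hδ]; field_simp
    rw [h3, h4]
    have h5 : T ^ ((k : ℝ) / 4) * T ^ (1 / 4 - (k : ℝ)) ≤ T ^ (-(k : ℝ) / 2) := by
      rw [← Real.rpow_add hT0]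
      exact Real.rpow_le_rpow_of_exponent_le hT1 (by linarith)
    have h6 : T ^ (-(k : ℝ) / 2) ≤ h ^ (-(k : ℝ) * ε / 2) := by
      calc T ^ (-(k : ℝ) / 2) ≤ (h ^ ε) ^ (-(k : ℝ) / 2) :=
            Real.rpow_le_rpow_of_nonpos (by positivity) hTε (by linarith)
        _ = h ^ (-(k : ℝ) * ε / 2) := by rw [← Real.rpow_mul hh0.le]; congr 1; ring
    calc C * h ^ Θ * T ^ ((k : ℝ) / 4) * (h ^ (k * ε / 8) * T ^ (1 / 4 - (k : ℝ)))
        = C * h ^ Θ * h ^ (k * ε / 8) * (T ^ ((k : ℝ) / 4) * T ^ (1 / 4 - (k : ℝ))) := by ring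
      _ ≤ C * h ^ Θ * h ^ (k * ε / 8) * h ^ (-(k : ℝ) * ε / 2) := by
          refine mul_le_mul_of_nonneg_left (h5.trans h6) (by positivity)
      _ = C * h ^ (Θ + k * ε / 8 + -(k : ℝ) * ε / 2) := by
          rw [Real.rpow_add hh0, Real.rpow_add hh0]; ring
      _ ≤ C * h ^ (-1 : ℝ) := by
          refine mul_le_mul_of_nonneg_left ?_ (by linarith)
          exact Real.rpow_le_rpow_of_exponent_le hh (by linarith)
      _ < h * h ^ (-1 : ℝ) := by
          refine mul_lt_mul_of_pos_right hCh (by positivity)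
      _ = 1 := by rw [Real.rpow_neg_one]; field_simp

theorem pwr (hINT : IntStmt) : PwrStmt := by
  classical
  intro D B ε hD hε hε1
  set Θ : ℝ := (B + D + 1) / 2 with hΘ
  obtain ⟨k, hk⟩ := exists_nat_ge (max 1 ((Θ + 1) * 8 / (3 * ε)))
  have hk1r : (1 : ℝ) ≤ k := (le_max_left _ _).trans hk
  have hk1 : 1 ≤ k := by exact_mod_cast hk1r
  have hkΘ : Θ + 1 ≤ 3 * k * ε / 8 := by
    have h1 := (le_max_right _ _).trans hk
    rw [div_le_iff₀ (by positivity)] at h1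
    linarith
  -- the constant
  choose! Ce hCe1 hCe using fun (e : ℕ) (he : 2 ≤ e) => hINT D k e hD hk1 he
  set C : ℝ := 1 + ∑ e ∈ Finset.range (B + D + 2), |Ce e| with hCdef
  have hC1 : 1 ≤ C := by
    have : 0 ≤ ∑ e ∈ Finset.range (B + D + 2), |Ce e| := Finset.sum_nonneg fun _ _ => abs_nonneg _
    linarith
  have hCle : ∀ e, e ≤ B + D + 1 → Ce e ≤ C := by
    intro e he
    have h1 : |Ce e| ≤ ∑ e ∈ Finset.range (B + D + 2), |Ce e| :=
      Finset.single_le_sum (f := fun e => |Ce e|) (fun _ _ => abs_nonneg _)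
        (Finset.mem_range.mpr (by omega))
    linarith [le_abs_self (Ce e)]
  have hlim : Filter.Tendsto (fun H : ℕ => (H : ℝ) ^ (5 * ε / 8)) Filter.atTop Filter.atTop :=
    (tendsto_rpow_atTop (by positivity)).comp tendsto_natCast_atTop_atTop
  obtain ⟨H₂, hH₂⟩ := Filter.eventually_atTop.mp (hlim.eventually_ge_atTop C)
  obtain ⟨H₃, hH₃⟩ := exists_nat_gt C
  refine ⟨1 / (4 * k), by positivity, ?_, 3 * (k + (B + D + 1) * k + D : ℕ), ?_,
    max (D + 1) (max H₂ H₃), fun H hH R hRD hRc hsep b c₀ v e hb hv hvH he2 heB => ?_⟩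
  · rw [div_lt_one (by positivity)]; linarith
  · have : 0 < k + (B + D + 1) * k + D := by omega
    have h2 : (0 : ℝ) < ((k + (B + D + 1) * k + D : ℕ) : ℝ) := by exact_mod_cast this
    linarith
  have hHD : D + 1 ≤ H := (le_max_left _ _).trans hH
  have hHr : (1 : ℝ) ≤ H := by exact_mod_cast (by omega : 1 ≤ H)
  have hHC2 := hH₂ H ((le_max_left _ _).trans ((le_max_right _ _).trans hH))
  have hHC : C < H := lt_of_lt_of_le hH₃ (by
    exact_mod_cast (le_max_right _ _).trans ((le_max_right _ _).trans hH))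
  have hvr : (1 : ℝ) ≤ v := by exact_mod_cast hv
  obtain ⟨hn1, hn2, hn3⟩ := numbers C Θ ε H v k hk1 hε hε1 hC1 hkΘ hHr hHC hHC2 hvr hvH
  set Λ : ℝ := v * ((H : ℝ) / v) ^ (1 / (4 * k) : ℝ) with hΛ
  have hΛpos : 0 < Λ := by positivity
  have hCe0 : 1 ≤ Ce e := hCe1 e he2
  have hCeC : Ce e ≤ C := hCle e heB
  -- the set
  set S : Finset ℤ := (Finset.Icc (-(H : ℤ)) H).filter (fun c => c ≡ c₀ [ZMOD v] ∧
    ¬ Near R ((H : ℝ) ^ (1 - ε / 8)) c ∧ ∃ q : ℕ, 1 ≤ q ∧ R.eval c = b * (q : ℤ) ^ e) with hS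
  have hset : {c : ℤ | |c| ≤ (H : ℤ) ∧ c ≡ c₀ [ZMOD v] ∧ ¬ Near R ((H : ℝ) ^ (1 - ε / 8)) c ∧
              ∃ q : ℕ, 1 ≤ q ∧ R.eval c = b * (q : ℤ) ^ e} = (S : Set ℤ) := by
    ext c
    rw [hS, Finset.coe_filter, Set.mem_ofPred_eq, Set.mem_ofPred_eq, Finset.mem_Icc, ← abs_le]
  rw [hset, Set.ncard_coe_finset]
  -- the fibres
  set f : ℤ → ℕ := fun c => ⌊((c : ℝ) + H) / Λ⌋₊ with hf
  have hQ : ∀ c ∈ S, ∀ q : ℕ, 1 ≤ q → R.eval c = b * (q : ℤ) ^ e → (q : ℝ) ≤ (H : ℝ) ^ Θ := by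
    intro c hc q hq hRq
    rw [hS, Finset.mem_filter, Finset.mem_Icc] at hc
    have h1 := eval_bound R D B H hRD hRc hHD c (abs_le.mpr hc.1)
    rw [hRq, abs_mul] at h1
    have hb1 : (1 : ℤ) ≤ |b| := Int.one_le_abs hb
    have h2 : ((q : ℤ) ^ 2) ≤ (H : ℤ) ^ (B + D + 1) := by
      have hq1 : (1 : ℤ) ≤ q := by exact_mod_cast hq
      calc ((q : ℤ) ^ 2) ≤ (q : ℤ) ^ e := pow_le_pow_right₀ hq1 he2
        _ ≤ |b| * |(q : ℤ) ^ e| := by
            rw [abs_of_nonneg (by positivity : (0 : ℤ) ≤ (q : ℤ) ^ e)]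
            nlinarith [pow_pos (by linarith : (0 : ℤ) < q) e]
        _ ≤ _ := h1
    have h3 : ((q : ℝ)) ^ 2 ≤ (H : ℝ) ^ (B + D + 1) := by exact_mod_cast h2
    have h4 : (H : ℝ) ^ (B + D + 1) = ((H : ℝ) ^ Θ) ^ 2 := by
      rw [← Real.rpow_natCast ((H : ℝ) ^ Θ), ← Real.rpow_mul (by positivity), ← Real.rpow_natCast]
      congr 1
      rw [hΘ]; push_cast; ring
    rw [h4] at h3
    exact le_of_sq_le_sq h3 (by positivity)
  have hfib : ∀ n ∈ S.image f, (S.filter (fun c => f c = n)).card ≤ k + (B + D + 1) * k + D := by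
    intro n _
    have h1 := hCe e he2 R hRD hsep b c₀ v ((H : ℝ) ^ (1 - ε / 8)) ((H : ℝ) ^ Θ) Λ hb hv hn1
      (le_trans (mul_le_mul_of_nonneg_left hCeC hΛpos.le) hn2)
      (Real.one_le_rpow hHr (by positivity))
      (lt_of_le_of_lt (by gcongr) hn3)
      (S.filter (fun c => f c = n)) (by
        intro c hc
        rw [Finset.mem_filter] at hc
        have hcS := hc.1
        rw [hS, Finset.mem_filter] at hcS
        obtain ⟨_, h2, h3, q, hq, h4⟩ := hcS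
        exact ⟨h2, h3, q, hq, hQ c hc.1 q hq h4, h4⟩) (by
        intro c hc c' hc'
        rw [Finset.mem_filter] at hc hc'
        have hnn : ∀ c ∈ S, 0 ≤ ((c : ℝ) + H) / Λ := by
          intro c hc
          rw [hS, Finset.mem_filter, Finset.mem_Icc] at hc
          have : (-(H : ℝ)) ≤ c := by exact_mod_cast hc.1.1
          exact div_nonneg (by linarith) hΛpos.le
        have h5 := Nat.floor_le (hnn c hc.1)
        have h6 := Nat.lt_floor_add_one (((c : ℝ) + H) / Λ)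
        have h7 := Nat.floor_le (hnn c' hc'.1)
        have h8 := Nat.lt_floor_add_one (((c' : ℝ) + H) / Λ)
        have e1 : (⌊((c : ℝ) + H) / Λ⌋₊ : ℝ) = n := congrArg Nat.cast hc.2
        have e2 : (⌊((c' : ℝ) + H) / Λ⌋₊ : ℝ) = n := congrArg Nat.cast hc'.2
        rw [e1] at h5 h6
        rw [e2] at h7 h8
        rw [le_div_iff₀ hΛpos] at h5 h7
        rw [div_lt_iff₀ hΛpos] at h6 h8
        push_cast
        rw [abs_le]
        constructor <;> nlinarith)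
    refine h1.trans ?_
    have : e * k ≤ (B + D + 1) * k := Nat.mul_le_mul_right k heB
    omega
  have hcard := Finset.card_le_mul_card_image S (k + (B + D + 1) * k + D) hfib
  have himg : ((S.image f).card : ℝ) ≤ 3 * ((H : ℝ) / v) ^ (1 - 1 / (4 * k) : ℝ) := by
    have h1 : S.image f ⊆ Finset.range (⌊2 * (H : ℝ) / Λ⌋₊ + 1) := by
      intro n hn
      rw [Finset.mem_image] at hn
      obtain ⟨c, hc, rfl⟩ := hn
      rw [hS, Finset.mem_filter, Finset.mem_Icc] at hc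
      rw [Finset.mem_range, Nat.lt_succ_iff]
      refine Nat.floor_le_floor ?_
      have : (c : ℝ) ≤ H := by exact_mod_cast hc.1.2
      gcongr
      linarith
    have h2 := Finset.card_le_card h1
    rw [Finset.card_range] at h2
    have h3 : ((S.image f).card : ℝ) ≤ 2 * (H : ℝ) / Λ + 1 := by
      have h4 : ((S.image f).card : ℝ) ≤ (⌊2 * (H : ℝ) / Λ⌋₊ : ℝ) + 1 := by exact_mod_cast h2
      have h5 := Nat.floor_le (by positivity : 0 ≤ 2 * (H : ℝ) / Λ)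
      linarith
    have hT1 : 1 ≤ (H : ℝ) / v := by
      rw [le_div_iff₀ (by linarith)]
      have : (H : ℝ) ^ (1 - ε) ≤ (H : ℝ) ^ (1 : ℝ) :=
        Real.rpow_le_rpow_of_exponent_le hHr (by linarith)
      rw [Real.rpow_one] at this
      linarith
    have h6 : 2 * (H : ℝ) / Λ = 2 * ((H : ℝ) / v) ^ (1 - 1 / (4 * k) : ℝ) := by
      rw [hΛ, Real.rpow_sub (by linarith), Real.rpow_one]
      field_simp
    have h7 : 1 ≤ ((H : ℝ) / v) ^ (1 - 1 / (4 * k) : ℝ) := by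
      refine Real.one_le_rpow hT1 ?_
      have : 1 / (4 * (k : ℝ)) ≤ 1 := by
        rw [div_le_one (by positivity)]; linarith
      linarith
    rw [h6] at h3
    linarith
  calc ((S.card : ℕ) : ℝ) ≤ ((k + (B + D + 1) * k + D : ℕ) : ℝ) * ((S.image f).card : ℝ) := by
        exact_mod_cast hcard
    _ ≤ ((k + (B + D + 1) * k + D : ℕ) : ℝ) *
          (3 * ((H : ℝ) / v) ^ (1 - 1 / (4 * k) : ℝ)) := by gcongr
    _ = 3 * ((k + (B + D + 1) * k + D : ℕ) : ℝ) * ((H : ℝ) / v) ^ (1 - 1 / (4 * k) : ℝ) := by ring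

end Pool.Agent.RAD.H23
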