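import Pool.Agent.Helper94_Rad.Stmt

/-! Squad RAD, module SQC: for almost all `c` the small part of `R c` is almost squarefree. -/

namespace Pool.Agent.RAD.H23

open Polynomial

/-- The number of integers of a residue class in a symmetric interval. -/
theorem card_class (H v : ℕ) (hv : 1 ≤ v) (c₀ : ℤ) :
    ((((Finset.Icc (-(H : ℤ)) H).filter (fun c => c ≡ c₀ [ZMOD v])).card : ℕ) : ℝ) ≤
      (2 * H + 1) / v + 1 := by
  have h1 : (Finset.Icc (-(H : ℤ)) H) = Finset.Ico (-(H : ℤ)) (H + 1) := by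
    ext x; simp only [Finset.mem_Icc, Finset.mem_Ico]; omega
  have hv' : (0 : ℤ) < v := by exact_mod_cast hv
  have h2 := Int.Ico_filter_modEq_card (-(H : ℤ)) (H + 1) hv' c₀
  rw [h1]
  have hvq : (0 : ℚ) < ((v : ℤ) : ℚ) := by exact_mod_cast hv
  have h3 : ((((Finset.Ico (-(H : ℤ)) (H + 1)).filter (fun c => c ≡ c₀ [ZMOD v])).card : ℕ) : ℚ) ≤
      (2 * H + 1) / v + 1 := by
    have h4 : ((((Finset.Ico (-(H : ℤ)) (H + 1)).filter
        (fun c => c ≡ c₀ [ZMOD v])).card : ℕ) : ℚ) =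
        ((((Finset.Ico (-(H : ℤ)) (H + 1)).filter
          (fun c => c ≡ c₀ [ZMOD v])).card : ℤ) : ℚ) := by norm_cast
    rw [h4, h2, Int.cast_max, Int.cast_zero]
    refine max_le ?_ (by positivity)
    rw [Int.cast_sub]
    have h5 := Int.ceil_lt_add_one (((((H : ℤ) + 1 : ℤ) : ℚ) - (c₀ : ℚ)) / ((v : ℤ) : ℚ))
    have h6 := Int.le_ceil ((((-(H : ℤ) : ℤ) : ℚ) - (c₀ : ℚ)) / ((v : ℤ) : ℚ))
    have h7 : (2 * (H : ℚ) + 1) / v = ((((H : ℤ) + 1 : ℤ) : ℚ) - (c₀ : ℚ)) / ((v : ℤ) : ℚ) -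
        (((-(H : ℤ) : ℤ) : ℚ) - (c₀ : ℚ)) / ((v : ℤ) : ℚ) := by
      rw [← sub_div]; push_cast; congr 1; ring
    rw [h7]
    linarith
  have h8 := (Rat.cast_le (K := ℝ)).mpr h3
  push_cast at h8
  exact h8

/-- The number of `c` with `v ∣ R c`. -/
theorem card_dvd (hRTC : RtcStmt) (R : ℤ[X]) (K D : ℕ) (hD : R.natDegree = D) (hL : Loc R K)
    (H v : ℕ) (hv : 1 ≤ v) (hvK : Nat.Coprime v K) :
    ((((Finset.Icc (-(H : ℤ)) H).filter (fun c => (v : ℤ) ∣ R.eval c)).card : ℕ) : ℝ) ≤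
      (D : ℝ) ^ v.primeFactors.card * ((2 * H + 1) / v + 1) := by
  classical
  obtain ⟨s, hs1, hs2⟩ := hRTC R K D hD hL v hv hvK
  have h1 : (Finset.Icc (-(H : ℤ)) H).filter (fun c => (v : ℤ) ∣ R.eval c) ⊆
      s.biUnion (fun c₀ => (Finset.Icc (-(H : ℤ)) H).filter (fun c => c ≡ c₀ [ZMOD v])) := by
    intro c hc
    rw [Finset.mem_filter] at hc
    obtain ⟨c₀, hc₀, h⟩ := hs2 c hc.2
    rw [Finset.mem_biUnion]
    exact ⟨c₀, hc₀, Finset.mem_filter.mpr ⟨hc.1, h⟩⟩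
  have h2 := (Finset.card_le_card h1).trans Finset.card_biUnion_le
  have h3 : ((((Finset.Icc (-(H : ℤ)) H).filter (fun c => (v : ℤ) ∣ R.eval c)).card : ℕ) : ℝ) ≤
      ∑ c₀ ∈ s, ((((Finset.Icc (-(H : ℤ)) H).filter (fun c => c ≡ c₀ [ZMOD v])).card : ℕ) : ℝ) := by
    exact_mod_cast h2
  refine h3.trans ((Finset.sum_le_sum (fun c₀ _ => card_class H v hv c₀)).trans ?_)
  rw [Finset.sum_const, nsmul_eq_mul]
  refine mul_le_mul_of_nonneg_right ?_ (by positivity)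
  exact_mod_cast hs1

/-- Tails of the series of `t ^ (-7/4)`. -/
theorem tail_small (η : ℝ) (hη : 0 < η) : ∃ N : ℕ, ∀ s : Finset ℕ, (∀ t ∈ s, N ≤ t) →
    ∑ t ∈ s, (t : ℝ) ^ (-(7 / 4) : ℝ) < η := by
  have h1 : Summable (fun t : ℕ => (t : ℝ) ^ (-(7 / 4) : ℝ)) :=
    Real.summable_nat_rpow.mpr (by norm_num)
  obtain ⟨s₀, hs₀⟩ := summable_iff_vanishing_norm.mp h1 η hη
  refine ⟨s₀.sup id + 1, fun s hs => ?_⟩
  have h2 : Disjoint s s₀ := by
    rw [Finset.disjoint_left]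
    intro t ht ht0
    have h3 := hs t ht
    have h4 : t ≤ s₀.sup id := Finset.le_sup (f := id) ht0
    omega
  exact lt_of_le_of_lt (le_abs_self _) (hs₀ s h2)

theorem sqc (hPRM : PrmStmt) (hDOM : DomStmt) (hRTC : RtcStmt) (hSQS : SqsStmt) : SqcStmt := by
  classical
  intro D B ζ δ hζ hζ2 hδ
  obtain ⟨C, hC1, hC⟩ := hDOM D (1 / 4) (by norm_num)
  have hC0 : 0 < C := by linarith
  obtain ⟨N, hN⟩ := tail_small (δ / (8 * C)) (by positivity)
  obtain ⟨H₁, hH₁⟩ := hPRM (δ / (6 * (D + 1))) (by positivity)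
  -- a threshold for `H ^ (ζ/2)`
  have hlim : Filter.Tendsto (fun H : ℕ => (H : ℝ) ^ (ζ / 2)) Filter.atTop Filter.atTop :=
    (tendsto_rpow_atTop (by positivity)).comp tendsto_natCast_atTop_atTop
  obtain ⟨H₂, hH₂⟩ := Filter.eventually_atTop.mp (hlim.eventually_ge_atTop ((N : ℝ) + 1))
  refine ⟨max 1 (max H₁ H₂), fun H hH R K hG => ?_⟩
  have hHpos : 1 ≤ H := (le_max_left _ _).trans hH
  have hHr : (1 : ℝ) ≤ H := by exact_mod_cast hHpos
  have hH1 : H₁ ≤ H := (le_max_left _ _).trans ((le_max_right _ _).trans hH)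
  have hH2 : H₂ ≤ H := (le_max_right _ _).trans ((le_max_right _ _).trans hH)
  set Z : ℕ := ⌊(H : ℝ) ^ (ζ / 2)⌋₊ with hZ
  have hZle : (Z : ℝ) ≤ (H : ℝ) ^ (ζ / 2) := Nat.floor_le (by positivity)
  have hZN : N + 1 ≤ Z := Nat.le_floor (by push_cast; exact hH₂ H hH2)
  have hZ1 : 1 ≤ Z := by omega
  have hZ2 : (Z : ℝ) ^ 2 ≤ (H : ℝ) ^ ζ := by
    calc (Z : ℝ) ^ 2 ≤ ((H : ℝ) ^ (ζ / 2)) ^ 2 := by gcongr
      _ = (H : ℝ) ^ ζ := by
        rw [← Real.rpow_natCast, ← Real.rpow_mul (by positivity)]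
        congr 1; push_cast; ring
  have hZ4 : Z ^ 4 ≤ H := by
    have h1 : ((Z ^ 4 : ℕ) : ℝ) ≤ H := by
      push_cast
      calc (Z : ℝ) ^ 4 = ((Z : ℝ) ^ 2) ^ 2 := by ring
        _ ≤ ((H : ℝ) ^ ζ) ^ 2 := by gcongr
        _ = (H : ℝ) ^ (2 * ζ) := by
          rw [← Real.rpow_natCast, ← Real.rpow_mul (by positivity)]
          congr 1; push_cast; ring
        _ ≤ (H : ℝ) ^ (1 : ℝ) := Real.rpow_le_rpow_of_exponent_le hHr (by linarith)
        _ = H := Real.rpow_one _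
    exact_mod_cast h1
  -- the two kinds of moduli
  set A : ℕ → Finset ℤ := fun v => (Finset.Icc (-(H : ℤ)) H).filter (fun c => (v : ℤ) ∣ R.eval c)
    with hA
  set T₁ : Finset ℕ := (Finset.range (H + 1)).filter
    (fun t => Z < t ∧ t ^ 2 ≤ H ∧ Nat.Coprime t K) with hT₁
  set T₂ : Finset ℕ := ((Finset.range (H + 1)).filter Nat.Prime).filter
    (fun p => H < p ^ 2 ∧ ¬ p ∣ K) with hT₂
  have hsub : {c : ℤ | |c| ≤ (H : ℤ) ∧ R.eval c ≠ 0 ∧
      (H : ℝ) ^ ζ * (smallRad K H (R.eval c).natAbs : ℝ) <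
        (smallPart K H (R.eval c).natAbs : ℝ)} ⊆
      ((T₁.biUnion (fun t => A (t ^ 2)) ∪ T₂.biUnion (fun p => A (p ^ 2)) : Finset ℤ) : Set ℤ) := by
    intro c hc
    obtain ⟨hc1, hc2, hc3⟩ := hc
    rw [Finset.mem_coe, Finset.mem_union, Finset.mem_biUnion, Finset.mem_biUnion]
    have hcI : c ∈ Finset.Icc (-(H : ℤ)) H := by
      rw [Finset.mem_Icc]; exact abs_le.mp hc1
    by_contra hcon
    push Not at hcon
    obtain ⟨hcon1, hcon2⟩ := hcon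
    have hm : 1 ≤ (R.eval c).natAbs := Nat.one_le_iff_ne_zero.mpr (Int.natAbs_ne_zero.mpr hc2)
    have hkey := hSQS K H (R.eval c).natAbs Z hm hZ1 hZ4 (by
      intro t ht1 ht2 ht3 ht4
      refine hcon1 t ?_ ?_
      · rw [hT₁, Finset.mem_filter, Finset.mem_range]
        refine ⟨?_, ht1, ht2, ht3⟩
        have : t ≤ t ^ 2 := Nat.le_self_pow (by norm_num) t
        omega
      · rw [hA]
        rw [Finset.mem_filter]
        exact ⟨hcI, Int.natCast_dvd.mpr ht4⟩) (by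
      intro p hp1 hp2 hp3 hp4 hp5
      refine hcon2 p ?_ ?_
      · rw [hT₂, Finset.mem_filter, Finset.mem_filter, Finset.mem_range]
        exact ⟨⟨by omega, hp1⟩, hp3, hp4⟩
      · rw [hA]
        rw [Finset.mem_filter]
        exact ⟨hcI, Int.natCast_dvd.mpr hp5⟩)
    have hkey' : (smallPart K H (R.eval c).natAbs : ℝ) ≤
        (Z : ℝ) ^ 2 * (smallRad K H (R.eval c).natAbs : ℝ) := by exact_mod_cast hkey
    have h9 : (Z : ℝ) ^ 2 * (smallRad K H (R.eval c).natAbs : ℝ) ≤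
        (H : ℝ) ^ ζ * (smallRad K H (R.eval c).natAbs : ℝ) :=
      mul_le_mul_of_nonneg_right hZ2 (by positivity)
    linarith
  have hcard : ({c : ℤ | |c| ≤ (H : ℤ) ∧ R.eval c ≠ 0 ∧
      (H : ℝ) ^ ζ * (smallRad K H (R.eval c).natAbs : ℝ) <
        (smallPart K H (R.eval c).natAbs : ℝ)}.ncard : ℝ) ≤
      ∑ t ∈ T₁, ((A (t ^ 2)).card : ℝ) + ∑ p ∈ T₂, ((A (p ^ 2)).card : ℝ) := by
    have h1 := Set.ncard_le_ncard hsub (Finset.finite_toSet _)
    rw [Set.ncard_coe_finset] at h1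
    have h2 := h1.trans ((Finset.card_union_le _ _).trans
      (Nat.add_le_add Finset.card_biUnion_le Finset.card_biUnion_le))
    exact_mod_cast h2
  -- first sum
  have hs1 : ∑ t ∈ T₁, ((A (t ^ 2)).card : ℝ) ≤ δ / 2 * H := by
    have hterm : ∀ t ∈ T₁, ((A (t ^ 2)).card : ℝ) ≤ 4 * C * H * (t : ℝ) ^ (-(7 / 4) : ℝ) := by
      intro t ht
      rw [hT₁, Finset.mem_filter] at ht
      obtain ⟨_, ht1, ht2, ht3⟩ := ht
      have ht0 : 1 ≤ t := by omega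
      have htr : (0 : ℝ) < t := by exact_mod_cast ht0
      have h1 := card_dvd hRTC R K D hG.deg hG.loc H (t ^ 2) (Nat.one_le_pow _ _ ht0)
        (Nat.Coprime.pow_left 2 ht3)
      rw [Nat.primeFactors_pow t (by norm_num : (2 : ℕ) ≠ 0)] at h1
      have h2 := hC t ht0
      have h3 : (2 * (H : ℝ) + 1) / ((t ^ 2 : ℕ) : ℝ) + 1 ≤ 4 * H / (t : ℝ) ^ 2 := by
        have ht2r : ((t : ℝ)) ^ 2 ≤ H := by exact_mod_cast ht2
        push_cast
        rw [div_add_one (by positivity), div_le_div_iff_of_pos_right (by positivity)]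
        linarith
      calc ((A (t ^ 2)).card : ℝ)
          ≤ (D : ℝ) ^ t.primeFactors.card * ((2 * (H : ℝ) + 1) / ((t ^ 2 : ℕ) : ℝ) + 1) := h1
        _ ≤ (C * (t : ℝ) ^ (1 / 4 : ℝ)) * (4 * H / (t : ℝ) ^ 2) := by
            refine mul_le_mul h2 h3 (by positivity) (by positivity)
        _ = 4 * C * H * (t : ℝ) ^ (-(7 / 4) : ℝ) := by
            have h4 : (t : ℝ) ^ (-(7 / 4) : ℝ) = (t : ℝ) ^ (1 / 4 : ℝ) / (t : ℝ) ^ 2 := by
              rw [← Real.rpow_natCast (t : ℝ) 2, ← Real.rpow_sub htr]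
              congr 1; push_cast; norm_num
            rw [h4]; ring
    have h1 := Finset.sum_le_sum hterm
    rw [← Finset.mul_sum] at h1
    have h2 : ∑ t ∈ T₁, (t : ℝ) ^ (-(7 / 4) : ℝ) < δ / (8 * C) := by
      refine hN T₁ (fun t ht => ?_)
      rw [hT₁, Finset.mem_filter] at ht
      have := ht.2.1
      omega
    calc ∑ t ∈ T₁, ((A (t ^ 2)).card : ℝ)
        ≤ 4 * C * H * ∑ t ∈ T₁, (t : ℝ) ^ (-(7 / 4) : ℝ) := h1
      _ ≤ 4 * C * H * (δ / (8 * C)) := by gcongr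
      _ = δ / 2 * H := by field_simp; ring
  -- second sum
  have hs2 : ∑ p ∈ T₂, ((A (p ^ 2)).card : ℝ) ≤ δ / 2 * H := by
    have hterm : ∀ p ∈ T₂, ((A (p ^ 2)).card : ℝ) ≤ 3 * D := by
      intro p hp
      rw [hT₂, Finset.mem_filter, Finset.mem_filter] at hp
      obtain ⟨⟨_, hp1⟩, hp2, hp3⟩ := hp
      have h1 := card_dvd hRTC R K D hG.deg hG.loc H (p ^ 2) (Nat.one_le_pow _ _ hp1.one_lt.le)
        (Nat.Coprime.pow_left 2 ((Nat.Prime.coprime_iff_not_dvd hp1).mpr hp3))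
      rw [Nat.primeFactors_pow p (by norm_num : (2 : ℕ) ≠ 0), hp1.primeFactors,
        Finset.card_singleton, pow_one] at h1
      have h3 : (2 * (H : ℝ) + 1) / ((p ^ 2 : ℕ) : ℝ) + 1 ≤ 3 := by
        have hp2r : (H : ℝ) + 1 ≤ ((p ^ 2 : ℕ) : ℝ) := by exact_mod_cast hp2
        have hpos : (0 : ℝ) < ((p ^ 2 : ℕ) : ℝ) := by linarith
        have : (2 * (H : ℝ) + 1) / ((p ^ 2 : ℕ) : ℝ) ≤ 2 := by
          rw [div_le_iff₀ hpos]; linarith
        linarith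
      calc ((A (p ^ 2)).card : ℝ) ≤ (D : ℝ) * ((2 * (H : ℝ) + 1) / ((p ^ 2 : ℕ) : ℝ) + 1) := h1
        _ ≤ (D : ℝ) * 3 := by gcongr
        _ = 3 * D := by ring
    have h1 := Finset.sum_le_sum hterm
    rw [Finset.sum_const, nsmul_eq_mul] at h1
    have h2 : (T₂.card : ℝ) ≤ δ / (6 * (D + 1)) * H := by
      refine le_trans ?_ (hH₁ H hH1)
      exact_mod_cast Finset.card_le_card (Finset.filter_subset _ _)
    calc ∑ p ∈ T₂, ((A (p ^ 2)).card : ℝ) ≤ (T₂.card : ℝ) * (3 * D) := h1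
      _ ≤ δ / (6 * (D + 1)) * H * (3 * (D + 1)) := by gcongr; linarith
      _ = δ / 2 * H := by field_simp; ring
  calc _ ≤ _ := hcard
    _ ≤ δ / 2 * H + δ / 2 * H := add_le_add hs1 hs2
    _ = δ * H := by ring

end Pool.Agent.RAD.H23
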